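import Mathlib
import Pool.Agent.W876.Trip.Main

/-!
# Two-colourings of the triples of a set of size `2 ^ 2 ^ ℵ₀`

There is a partition of the triples of a set of size `2 ^ 2 ^ ℵ₀` into two classes such that every
subset of size `ℵ₁` contains, for every natural number `n`, an `n`-element set all of whose triples
lie in the first class and one all of whose triples lie in the second class. The case `n = 4` is
the positive answer to Q1.
-/

namespace Pool.Agent.Results.MP_dc3585_lc.TripleColouring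

open Cardinal

universe u

theorem result (S : Type u) (hS : #S = 2 ^ ((2 : Cardinal.{u}) ^ ℵ₀)) :
    ∃ C : Set (Finset S), ∀ A : Set S, #A = ℵ_ 1 → ∀ n : ℕ,
      (∃ Y : Finset S, (Y : Set S) ⊆ A ∧ Y.card = n ∧ ∀ T ⊆ Y, T.card = 3 → T ∈ C) ∧
      (∃ Y : Finset S, (Y : Set S) ⊆ A ∧ Y.card = n ∧ ∀ T ⊆ Y, T.card = 3 → T ∉ C) := by
  classical
  let ι : Type := (Cardinal.continuum.{0}).ord.ToType
  have hι : #ι = 𝔠 := by simp [ι]
  obtain ⟨r⟩ : Nonempty (ι ↪ ℝ) := by
    rw [← Cardinal.le_def, hι, mk_real]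
  have hX : #(ι → Bool) = 2 ^ ((2 : Cardinal.{0}) ^ ℵ₀) := by
    simp [hι, two_power_aleph0]
  obtain ⟨e⟩ : Nonempty (S ≃ (ι → Bool)) := by
    rw [← Cardinal.lift_mk_eq', hS, hX]
    simp
  let C : Set (Finset S) := {T | Pool.Agent.W876.Trip.Col (fun i => r i) (T.image e)}
  refine ⟨C, fun A hA n => ?_⟩
  -- an enumeration of a part of `A` in type `ω₁`
  obtain ⟨f, hf1, hf2, hf3⟩ : ∃ f : Pool.Agent.Helper126.Lam.Forc.K1 → S, (∀ α, f α ∈ A) ∧
      Function.Injective f ∧ ∀ α β, α < β → Pool.Agent.W876.Trip.W (e (f α)) (e (f β)) := by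
    let R : A → A → Prop := fun a b => WellOrderingRel (e a) (e b)
    let emb : R ↪r (WellOrderingRel : (ι → Bool) → (ι → Bool) → Prop) :=
      ⟨⟨fun a => e a, fun a b h => Subtype.ext (e.injective h)⟩, Iff.rfl⟩
    have : IsWellOrder A R := emb.isWellOrder
    have hle : Ordinal.lift.{u, 0}
        (Ordinal.type ((· < ·) : Pool.Agent.Helper126.Lam.Forc.K1 → _ → Prop)) ≤
        Ordinal.lift.{0, u} (Ordinal.type R) := by
      rw [Ordinal.type_toType, Cardinal.lift_ord, Cardinal.lift_aleph, Ordinal.lift_uzero,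
        Cardinal.ord_le, Ordinal.card_type, hA]
      simp
    obtain ⟨g⟩ := Ordinal.lift_type_le.1 hle
    refine ⟨fun α => (g α : S), fun α => (g α).2, fun α β h => g.injective (Subtype.ext h), ?_⟩
    intro α β h
    exact (g.map_rel_iff (a := α) (b := β)).2 h
  have key : ∀ a : Bool, ∃ Y : Finset S, (Y : Set S) ⊆ A ∧ Y.card = n ∧
      ∀ T ⊆ Y, T.card = 3 → (T ∈ C ↔ a = true) := by
    intro a
    obtain ⟨Y, hY1, hY2⟩ := Pool.Agent.W876.Trip.both (fun i => r i) r.injective
      (fun α => e (f α)) (e.injective.comp hf2) hf3 a n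
    refine ⟨Y.image f, ?_, by rw [Finset.card_image_of_injective _ hf2, hY1], ?_⟩
    · intro s hs
      obtain ⟨α, _, rfl⟩ := Finset.mem_image.1 (Finset.mem_coe.1 hs)
      exact hf1 α
    · intro T hT h3
      obtain ⟨U, hU, rfl⟩ := Finset.subset_image_iff.1 hT
      rw [Finset.card_image_of_injective _ hf2] at h3
      have h4 := hY2 U hU h3
      have h5 : (U.image f).image e = U.image (fun α => e (f α)) := by
        rw [Finset.image_image]; rfl
      rw [← h4]
      show Pool.Agent.W876.Trip.Col _ ((U.image f).image e) ↔ _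
      rw [h5]
  obtain ⟨Y, y1, y2, y3⟩ := key true
  obtain ⟨Z, z1, z2, z3⟩ := key false
  exact ⟨⟨Y, y1, y2, fun T hT h3 => (y3 T hT h3).2 rfl⟩,
    ⟨Z, z1, z2, fun T hT h3 h => by simpa using (z3 T hT h3).1 h⟩⟩

end Pool.Agent.Results.MP_dc3585_lc.TripleColouring
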